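import Pool.Agent.TH745.MN.Defs
import Pool.Agent.TH603.Sur.Forms

/-! MN-5: rational points common to several emptiness statements. -/

set_option autoImplicit false

namespace Pool.Agent.TH509.MN

open Finset Pool.Agent.TH176.Nag Pool.Agent.TH603.Sur Pool.Agent.TH745.MN

theorem single_points {ι : Type} [Finite ι] {w : ι → ℕ} {S : Set (ℤ × ℤ)} (hfin : S.Finite)
    (h : Emp w S) : ∃ x y : ι → ℚ, (∀ j, x j ≠ 0) ∧ (∀ j, y j ≠ 0) ∧
      ∀ f : (ℤ × ℤ) →₀ ℚ, (↑f.support : Set (ℤ × ℤ)) ⊆ S →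
        (∀ j, LM f (x j) (y j) (w j)) → f = 0 := by
  classical
  -- a shift
  obtain ⟨c, hc⟩ : ∃ c : ℤ, ∀ m ∈ S, 0 ≤ m.1 + c ∧ 0 ≤ m.2 + c := by
    obtain ⟨c, hc⟩ := (hfin.image fun m : ℤ × ℤ => max (-m.1) (-m.2)).bddAbove
    refine ⟨c, fun m hm => ?_⟩
    have h1 : max (-m.1) (-m.2) ≤ c := hc ⟨m, hm, rfl⟩
    have h2 := (le_max_left (-m.1) (-m.2)).trans h1
    have h3 := (le_max_right (-m.1) (-m.2)).trans h1
    constructor <;> linarith
  let φ : ℤ × ℤ → ℤ × ℤ := fun m => (m.1 + c, m.2 + c)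
  have hφ : Function.Injective φ := by
    rintro ⟨p, q⟩ ⟨p', q'⟩ h
    simp only [φ, Prod.mk.injEq] at h
    obtain ⟨h1, h2⟩ := h
    ext <;> simp <;> omega
  have hS' : Emp w (φ '' S) := by
    refine h.comap 1 0 0 1 (-c) (-c) (by norm_num) ?_
    rintro m ⟨m', hm', rfl⟩
    have e : (1 * (φ m').1 + 0 * (φ m').2 + -c, 0 * (φ m').1 + 1 * (φ m').2 + -c) = m' := by
      ext
      · simp only [φ]; ring
      · simp only [φ]; ring
    rw [e]
    exact hm'
  obtain ⟨F, hF, hF'⟩ := Emp_open (hfin.image φ) (by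
    rintro m ⟨m', hm', rfl⟩
    exact hc m' hm') hS'
  obtain ⟨P, hP⟩ : ∃ P : ι × Fin 2 → ℚ, MvPolynomial.aeval P F ≠ 0 := by
    by_contra hcon
    push Not at hcon
    apply hF
    apply MvPolynomial.funext
    intro x
    rw [map_zero]
    have := hcon x
    rwa [MvPolynomial.aeval_eq_eval] at this
  obtain ⟨h1, h2⟩ := hF' P hP
  refine ⟨fun j => P (j, 0), fun j => P (j, 1), fun j => h1 _, fun j => h1 _, ?_⟩
  intro f hf hL
  have h3 : f.mapDomain φ = 0 := by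
    apply h2
    · intro m hm
      have := Finsupp.mapDomain_support hm
      simp only [Finset.mem_image] at this
      obtain ⟨m', hm', rfl⟩ := this
      exact ⟨m', hf hm', rfl⟩
    · intro i
      refine (hL i).relabel φ rfl (P (i, 0) ^ c * P (i, 1) ^ c) ?_ c 1 0 c 0 1 ?_ ?_
      · intro m _
        simp only [φ]
        rw [zpow_add₀ (h1 _), zpow_add₀ (h1 _)]
        ring
      · intro m _; simp only [φ]; push_cast; ring
      · intro m _; simp only [φ]; push_cast; ring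
  exact (Finsupp.mapDomain_injective hφ) (by rw [h3, Finsupp.mapDomain_zero])

theorem common_points {β : Type} [Fintype β] {κ : β → Type} [∀ i, Finite (κ i)]
    {v : ∀ i, κ i → ℕ} {S : β → Set (ℤ × ℤ)} (hfin : ∀ i, (S i).Finite) (h : ∀ i, Emp (v i) (S i)) :
    ∃ x y : ∀ i, κ i → ℚ, (∀ i j, x i j ≠ 0) ∧ (∀ i j, y i j ≠ 0) ∧
      ∀ i, ∀ f : (ℤ × ℤ) →₀ ℚ, (↑f.support : Set (ℤ × ℤ)) ⊆ S i →
        (∀ j, LM f (x i j) (y i j) (v i j)) → f = 0 := by
  choose x y hx hy hf using fun i => single_points (hfin i) (h i)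
  exact ⟨x, y, hx, hy, hf⟩

end Pool.Agent.TH509.MN
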